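import Pool.Agent.helper29.RPQ.SpecP
import Pool.Agent.helper62.RS.GLC
import Pool.Agent.helper92.RS.GMG

set_option autoImplicit false

open scoped MatrixGroups ContDiff Topology UpperHalfPlane ComplexConjugate
open UpperHalfPlane MeasureTheory Filter Set

namespace Pool.Agent.RPQ

open Pool.Agent.RS
open Pool.Agent.MS (BA BB st pf gk Dk amk)

/-- the box of dyadic size -/
def GKI_S (X w l : ℝ) (j : ℕ) : Set SL(2, ℝ) := {b | (∀ i k, |b.1 i k| ≤ 3) ∧ |b.1 1 0| ≤ 2 ^ j / X ∧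
  |b.1 0 1| ≤ 36 * 2 ^ j * w ∧ |b.1 0 0 - b.1 1 1| ≤ 24 * 2 ^ j * l}

theorem GKI_cont (i k : Fin 2) : Continuous (fun b : SL(2, ℝ) => b.1 i k) :=
  (Matrix.SpecialLinearGroup.isClosedEmbedding_val (n := Fin 2) (R := ℝ)).continuous.matrix_elem i k

theorem GKI_meas (X w l : ℝ) (j : ℕ) : MeasurableSet (GKI_S X w l j) := by
  have hc := GKI_cont
  have h1 : MeasurableSet {b : SL(2, ℝ) | ∀ i k, |b.1 i k| ≤ 3} := by
    have : {b : SL(2, ℝ) | ∀ i k, |b.1 i k| ≤ 3} = ⋂ i, ⋂ k, {b : SL(2, ℝ) | |b.1 i k| ≤ 3} := by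
      ext b
      simp only [Set.mem_ofPred_eq, Set.mem_iInter]
    rw [this]
    exact MeasurableSet.iInter fun i => MeasurableSet.iInter fun k => measurableSet_le (hc i k).abs.measurable measurable_const
  exact h1.inter ((measurableSet_le (hc 1 0).abs.measurable measurable_const).inter
    ((measurableSet_le (hc 0 1).abs.measurable measurable_const).inter
      (measurableSet_le ((hc 0 0).sub (hc 1 1)).abs.measurable measurable_const)))

theorem GKI_fin : mG {b : SL(2, ℝ) | ∀ i k, |b.1 i k| ≤ 3} < ⊤ := by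
  have h1 : IsCompact {m : Matrix (Fin 2) (Fin 2) ℝ | ∀ i j, |m i j| ≤ 3} := by
    have h2 : {m : Matrix (Fin 2) (Fin 2) ℝ | ∀ i j, |m i j| ≤ 3} =
        Set.pi Set.univ (fun _ : Fin 2 => Set.pi Set.univ (fun _ : Fin 2 => Icc (-3 : ℝ) 3)) := by
      ext m
      constructor
      · intro h i _ j _
        exact abs_le.1 (h i j)
      · intro h i j
        exact abs_le.2 (h i (Set.mem_univ _) j (Set.mem_univ _))
    rw [h2]
    exact isCompact_univ_pi fun _ => isCompact_univ_pi fun _ => isCompact_Icc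
  have h3 : IsCompact {h : SL(2, ℝ) | ∀ i j, |h.1 i j| ≤ 3} :=
    Matrix.SpecialLinearGroup.isClosedEmbedding_val.isCompact_preimage h1
  exact (GMG GLC).2.1 _ h3

theorem GKI_vol (hVOX : VOX_stmt) : ∃ C₄ : ℝ, 0 < C₄ ∧ ∀ (X w l : ℝ) (j : ℕ), 0 < X → 1 / X ≤ w → w ≤ l →
    mG (GKI_S X w l j) ≤ ENNReal.ofReal (C₄ * 8 ^ j * (w * l / X)) := by
  obtain ⟨C₂, hC₂, hV⟩ := hVOX
  set E : Set SL(2, ℝ) := {b : SL(2, ℝ) | ∀ i k, |b.1 i k| ≤ 3} with hE
  set C₃ : ℝ := (mG E).toReal with hC₃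
  have hC₃0 : 0 ≤ C₃ := ENNReal.toReal_nonneg
  have hE3 : mG E = ENNReal.ofReal C₃ := (ENNReal.ofReal_toReal GKI_fin.ne).symm
  refine ⟨864 * C₂ + 512 * C₃, by positivity, fun X w l j hX hw hl => ?_⟩
  have hw0 : 0 < w := lt_of_lt_of_le (by positivity) hw
  have hl0 : 0 < l := lt_of_lt_of_le hw0 hl
  have h2j : (0 : ℝ) < 2 ^ j := by positivity
  have h8 : (8 : ℝ) ^ j = 2 ^ j * 2 ^ j * 2 ^ j := by
    rw [← mul_pow, ← mul_pow]
    norm_num
  by_cases hj : (2 : ℝ) ^ j / X ≤ 1 / 8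
  · refine (hV (2 ^ j / X) (36 * 2 ^ j * w) (24 * 2 ^ j * l) (by positivity) hj (by positivity) (by positivity)).trans
      (ENNReal.ofReal_le_ofReal ?_)
    have h1 : C₂ * (2 ^ j / X * (36 * 2 ^ j * w) * (24 * 2 ^ j * l)) = 864 * C₂ * 8 ^ j * (w * l / X) := by
      rw [h8]
      ring
    rw [h1]
    have h2 : 0 ≤ 512 * C₃ * 8 ^ j * (w * l / X) := by positivity
    have h3 : (864 * C₂ + 512 * C₃) * 8 ^ j * (w * l / X) = 864 * C₂ * 8 ^ j * (w * l / X) + 512 * C₃ * 8 ^ j * (w * l / X) := by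
      ring
    rw [h3]
    linarith
  · push Not at hj
    have h1 : mG (GKI_S X w l j) ≤ mG E := measure_mono fun b hb => hb.1
    refine h1.trans ?_
    rw [hE3]
    refine ENNReal.ofReal_le_ofReal ?_
    have hu : 1 ≤ 8 * (2 ^ j / X) := by linarith
    have hu2 : 8 * ((2 : ℝ) ^ j / X) ≤ 8 * (2 ^ j * w) := by
      have : (2 : ℝ) ^ j / X = 2 ^ j * (1 / X) := by ring
      rw [this]
      have := mul_le_mul_of_nonneg_left hw h2j.le
      linarith
    have hu3 : 8 * ((2 : ℝ) ^ j / X) ≤ 8 * (2 ^ j * l) := by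
      have := mul_le_mul_of_nonneg_left hl h2j.le
      linarith
    have h4 : 1 ≤ 8 * ((2 : ℝ) ^ j / X) * (8 * (2 ^ j * w)) := by
      have := mul_le_mul hu (hu.trans hu2) (by norm_num) (by positivity)
      linarith
    have h5 : 1 ≤ 8 * ((2 : ℝ) ^ j / X) * (8 * (2 ^ j * w)) * (8 * (2 ^ j * l)) := by
      have := mul_le_mul h4 (hu.trans hu3) (by norm_num) (by positivity)
      linarith
    have h6 : 8 * ((2 : ℝ) ^ j / X) * (8 * (2 ^ j * w)) * (8 * (2 ^ j * l)) = 512 * 8 ^ j * (w * l / X) := by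
      rw [h8]
      ring
    rw [h6] at h5
    have h7 : C₃ * 1 ≤ C₃ * (512 * 8 ^ j * (w * l / X)) := mul_le_mul_of_nonneg_left h5 hC₃0
    have h9 : 0 ≤ 864 * C₂ * 8 ^ j * (w * l / X) := by positivity
    have h3 : (864 * C₂ + 512 * C₃) * 8 ^ j * (w * l / X) = 864 * C₂ * 8 ^ j * (w * l / X) + C₃ * (512 * 8 ^ j * (w * l / X)) := by
      ring
    rw [h3]
    linarith

/-- the pointwise bound -/
theorem GKI_pt (hOVS : OVS_stmt) {C₁ R w l A : ℝ} {c : ℍ → ℂ} (hC₁ : 0 < C₁) (hR : 1 ≤ R) (hw0 : 0 < w) (hXw : 1 / (w * R) ≤ w)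
    (hwl : w ≤ l) (hl : l ≤ 1 / 4) (hc : ∀ z : ℍ, c z ≠ 0 → |z.re| ≤ w ∧ |Real.log z.im| ≤ l)
    (hb : ∀ b : SL(2, ℝ), ‖gk R c c b‖ ≤ C₁ * (A * A * w * l) / (1 + R * |b.1 1 0| / (1 / w)) ^ 8) (b : SL(2, ℝ)) :
    ENNReal.ofReal ‖gk R c c b‖ ≤ ∑' j : ℕ, (GKI_S (w * R) w l j).indicator
      (fun _ => ENNReal.ofReal (256 * C₁ * (A * A * w * l) * (1 / 256) ^ j)) b := by
  by_cases h0 : gk R c c b = 0
  · rw [h0]
    simp
  obtain ⟨e3, e1, e2⟩ := hOVS R w w l c c b (by linarith) (by linarith) hl hc hc h0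
  have hX : 0 < w * R := mul_pos hw0 (by linarith)
  have hl0 : 0 < l := lt_of_lt_of_le hw0 hwl
  have hex : ∃ j : ℕ, |b.1 1 0| ≤ 2 ^ j / (w * R) := by
    obtain ⟨j, hj⟩ := pow_unbounded_of_one_lt (|b.1 1 0| * (w * R)) (one_lt_two : (1 : ℝ) < 2)
    exact ⟨j, by rw [le_div_iff₀ hX]; exact hj.le⟩
  classical
  set j := Nat.find hex with hj
  have hj1 : |b.1 1 0| ≤ 2 ^ j / (w * R) := Nat.find_spec hex
  have h2j : (1 : ℝ) ≤ 2 ^ j := one_le_pow₀ (by norm_num)
  have hj2 : |b.1 1 0| ≤ 2 ^ j * w := by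
    refine hj1.trans ?_
    have : (2 : ℝ) ^ j / (w * R) = 2 ^ j * (1 / (w * R)) := by ring
    rw [this]
    exact mul_le_mul_of_nonneg_left hXw (by positivity)
  have hj3 : (2 : ℝ) ^ j * w ≤ 2 ^ j * l := mul_le_mul_of_nonneg_left hwl (by positivity)
  have hw1 : w ≤ 2 ^ j * w := le_mul_of_one_le_left hw0.le h2j
  have hl1 : l ≤ 2 ^ j * l := le_mul_of_one_le_left hl0.le h2j
  have hS : b ∈ GKI_S (w * R) w l j := by
    refine ⟨e3, hj1, ?_, ?_⟩
    · refine e1.trans ?_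
      linarith
    · refine e2.trans ?_
      linarith
  have hA : 0 ≤ A * A := mul_self_nonneg A
  have hK : 0 ≤ C₁ * (A * A * w * l) := by positivity
  have hbd : ‖gk R c c b‖ ≤ 256 * C₁ * (A * A * w * l) * (1 / 256) ^ j := by
    refine (hb b).trans ?_
    have hx : R * |b.1 1 0| / (1 / w) = w * R * |b.1 1 0| := by
      rw [div_div_eq_mul_div, div_one]
      ring
    rw [hx]
    have hx0 : 0 ≤ w * R * |b.1 1 0| := by positivity
    rcases Nat.eq_zero_or_pos j with hj0 | hj0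
    · rw [hj0, pow_zero, mul_one]
      have h1 : (1 : ℝ) ≤ (1 + w * R * |b.1 1 0|) ^ 8 := one_le_pow₀ (by linarith)
      rw [div_le_iff₀ (by positivity)]
      nlinarith
    · obtain ⟨i, hi⟩ : ∃ i, j = i + 1 := ⟨j - 1, by omega⟩
      have hlt : i < Nat.find hex := by
        rw [← hj, hi]
        exact Nat.lt_succ_self i
      have h1 := Nat.find_min hex hlt
      push Not at h1
      rw [div_lt_iff₀ hX] at h1
      have h2 : (2 : ℝ) ^ i ≤ 1 + w * R * |b.1 1 0| := by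
        have : |b.1 1 0| * (w * R) = w * R * |b.1 1 0| := by ring
        linarith
      have h3 : (256 : ℝ) ^ i ≤ (1 + w * R * |b.1 1 0|) ^ 8 := by
        have h4 := pow_le_pow_left₀ (by positivity) h2 8
        have h5 : ((2 : ℝ) ^ i) ^ 8 = 256 ^ i := by
          rw [← pow_mul, mul_comm, pow_mul]
          norm_num
        rwa [h5] at h4
      have h6 : (1 / 256 : ℝ) ^ j = 1 / (256 * 256 ^ i) := by
        rw [hi, one_div_pow, pow_succ]
        ring
      rw [h6]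
      have h7 : 256 * C₁ * (A * A * w * l) * (1 / (256 * 256 ^ i)) = C₁ * (A * A * w * l) / 256 ^ i := by
        field_simp
      rw [h7]
      exact div_le_div_of_nonneg_left hK (by positivity) h3
  refine le_trans ?_ (ENNReal.le_tsum j)
  rw [Set.indicator_of_mem hS]
  exact ENNReal.ofReal_le_ofReal hbd

/-- **Row GKI** -/
theorem GKI_proof (hOVD : OVD_stmt) (hOVS : OVS_stmt) (hVOX : VOX_stmt) (hACM : ACM_stmt) : GKI_stmt := by
  obtain ⟨C₁, hC₁, h1⟩ := hOVD 8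
  obtain ⟨C₄, hC₄, h4⟩ := GKI_vol hVOX
  refine ⟨512 * C₁ * C₄, by positivity, fun R w l A c hR hw hwl hl hA hc => ?_⟩
  have hR0 : 0 < R := by linarith
  have hw0 : 0 < w := lt_of_lt_of_le (by positivity) hw
  have hl0 : 0 < l := lt_of_lt_of_le hw0 hwl
  have hX : 0 < w * R := by positivity
  have hXw : 1 / (w * R) ≤ w := by
    rw [div_le_iff₀ hX]
    have h2 : R ^ (-(1 / 2) : ℝ) * R ^ (-(1 / 2) : ℝ) ≤ w * w := mul_le_mul hw hw (by positivity) hw0.le
    rw [← Real.rpow_add hR0] at h2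
    have h3 : (-(1 / 2) : ℝ) + -(1 / 2) = -1 := by norm_num
    rw [h3, Real.rpow_neg_one] at h2
    have h5 : R⁻¹ * R ≤ w * w * R := mul_le_mul_of_nonneg_right h2 hR0.le
    rw [inv_mul_cancel₀ hR0.ne'] at h5
    linarith
  have hb : ∀ b : SL(2, ℝ), ‖gk R c c b‖ ≤ C₁ * (A * A * w * l) / (1 + R * |b.1 1 0| / (1 / w)) ^ 8 := by
    intro b
    refine h1 R A A (1 / w) w w l c c b hR hA hA ?_ hw0 (by linarith) (by linarith) hl0 hl hc hc
    rw [le_div_iff₀ hw0]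
    linarith
  have hpt := GKI_pt hOVS hC₁ hR hw0 hXw hwl hl hc.supp hb
  set D : ℝ := 256 * C₁ * (A * A * w * l) with hD
  have hD0 : 0 ≤ D := by
    rw [hD]
    have := mul_nonneg hA hA
    positivity
  calc ∫⁻ b, ENNReal.ofReal ‖gk R c c b‖ ∂mG
      ≤ ∫⁻ b, ∑' j : ℕ, (GKI_S (w * R) w l j).indicator (fun _ => ENNReal.ofReal (D * (1 / 256) ^ j)) b ∂mG := lintegral_mono hpt
    _ = ∑' j : ℕ, ∫⁻ b, (GKI_S (w * R) w l j).indicator (fun _ => ENNReal.ofReal (D * (1 / 256) ^ j)) b ∂mG :=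
        lintegral_tsum fun j => (measurable_const.indicator (GKI_meas _ _ _ j)).aemeasurable
    _ ≤ ∑' j : ℕ, ENNReal.ofReal (D * C₄ * (w * l / (w * R)) * (1 / 32) ^ j) := by
        refine ENNReal.tsum_le_tsum fun j => ?_
        rw [lintegral_indicator_const (GKI_meas _ _ _ j)]
        calc ENNReal.ofReal (D * (1 / 256) ^ j) * mG (GKI_S (w * R) w l j)
            ≤ ENNReal.ofReal (D * (1 / 256) ^ j) * ENNReal.ofReal (C₄ * 8 ^ j * (w * l / (w * R))) :=
              mul_le_mul' le_rfl (h4 (w * R) w l j hX hXw hwl)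
          _ = ENNReal.ofReal (D * C₄ * (w * l / (w * R)) * (1 / 32) ^ j) := by
              rw [← ENNReal.ofReal_mul (by positivity)]
              congr 1
              have h5 : (1 / 32 : ℝ) ^ j = (1 / 256) ^ j * 8 ^ j := by
                rw [← mul_pow]
                norm_num
              rw [h5]
              ring
    _ = ENNReal.ofReal (∑' j : ℕ, D * C₄ * (w * l / (w * R)) * (1 / 32) ^ j) := by
        rw [ENNReal.ofReal_tsum_of_nonneg]
        · intro j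
          positivity
        · exact (summable_geometric_of_lt_one (by norm_num) (by norm_num)).mul_left _
    _ ≤ ENNReal.ofReal (512 * C₁ * C₄ * (A ^ 2 * w * l ^ 2 / R)) := by
        refine ENNReal.ofReal_le_ofReal ?_
        rw [tsum_mul_left, tsum_geometric_of_lt_one (by norm_num) (by norm_num)]
        have h6 : D * C₄ * (w * l / (w * R)) = 256 * C₁ * C₄ * (A ^ 2 * w * l ^ 2 / R) := by
          rw [hD]
          field_simp
        rw [h6]
        have h7 : 0 ≤ 256 * C₁ * C₄ * (A ^ 2 * w * l ^ 2 / R) := by positivity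
        have h8 : (1 - (1 / 32 : ℝ))⁻¹ ≤ 2 := by norm_num
        calc 256 * C₁ * C₄ * (A ^ 2 * w * l ^ 2 / R) * (1 - 1 / 32)⁻¹ ≤ 256 * C₁ * C₄ * (A ^ 2 * w * l ^ 2 / R) * 2 :=
              mul_le_mul_of_nonneg_left h8 h7
          _ = 512 * C₁ * C₄ * (A ^ 2 * w * l ^ 2 / R) := by ring

end Pool.Agent.RPQ
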